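import Pool.Agent.Helper38.Curl.Rep

/-! Packet C-WC: weak compactness in `L²_loc`. -/

open MeasureTheory Set Filter Topology Metric
open scoped ContDiff RealInnerProductSpace
open Pool.Agent.Helper38.Curl

namespace Pool.Agent.Helper42.Curl

/-- Weak sequential compactness in `L²`. -/
theorem weak_compact_L2 {w : ℕ → E → E} (hw : ∀ n, MemLp (w n) 2) {C : ℝ}
    (hC : ∀ n, sq (w n) ≤ C) :
    ∃ σ : ℕ → ℕ, StrictMono σ ∧ ∃ W : E → E, MemLp W 2 ∧
      ∀ ψ : E → E, MemLp ψ 2 → Tendsto (fun n => ip (w (σ n)) ψ) atTop (𝓝 (ip W ψ)) := by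
  let H := Lp E 2 (volume : Measure E)
  have hfact : Fact ((2 : ENNReal) ≠ ⊤) := ⟨by norm_num⟩
  have hsep : TopologicalSpace.SeparableSpace H := by
    have : SecondCountableTopology H := inferInstance
    infer_instance
  let f : ℕ → H := fun n => (hw n).toLp (w n)
  have hf : ∀ n, ‖f n‖ ≤ √C := by
    intro n
    rw [← sqrt_sq_eq_norm (hw n)]
    exact Real.sqrt_le_sqrt (hC n)
  let F : ℕ → WeakDual ℝ H := fun n => StrongDual.toWeakDual (InnerProductSpace.toDual ℝ H (f n))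
  have hF : ∀ n, F n ∈ WeakDual.toStrongDual ⁻¹' Metric.closedBall (0 : StrongDual ℝ H) (√C) := by
    intro n
    rw [Set.mem_preimage, mem_closedBall_zero_iff]
    have h1 : WeakDual.toStrongDual (F n) = InnerProductSpace.toDual ℝ H (f n) := rfl
    rw [h1, LinearIsometryEquiv.norm_map]
    exact hf n
  obtain ⟨a, _, σ, hσ, hlim⟩ := WeakDual.isSeqCompact_closedBall ℝ H 0 (√C) hF
  refine ⟨σ, hσ, ((InnerProductSpace.toDual ℝ H).symm (WeakDual.toStrongDual a) : H), Lp.memLp _,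
    ?_⟩
  intro ψ hψ
  have h1 : Tendsto (fun n => F (σ n) (hψ.toLp ψ)) atTop (𝓝 (a (hψ.toLp ψ))) :=
    ((WeakDual.eval_continuous (hψ.toLp ψ)).tendsto a).comp hlim
  have h2 : ∀ n, F (σ n) (hψ.toLp ψ) = ip (w (σ n)) ψ := by
    intro n
    rw [ip_eq_inner (hw _) hψ]
    rfl
  have h3 : a (hψ.toLp ψ) =
      ip ((InnerProductSpace.toDual ℝ H).symm (WeakDual.toStrongDual a) : H) ψ := by
    rw [ip_eq_inner (Lp.memLp _) hψ, Lp.toLp_coeFn]
    rw [InnerProductSpace.toDual_symm_apply]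
    rfl
  rw [← h3]
  simpa only [h2] using h1

/-- Weighted square integrals. -/
theorem sq_weight_le {v : E → E} (hv : MemLp v 2) {γ M : ℕ → ℝ} (hγ : ∀ k, 0 < γ k)
    (hM : ∀ k : ℕ, sqOn (ball 0 (k + 1)) v ≤ M k) (hγM : ∀ k, γ k ^ 2 * M k ≤ (1 / 4) ^ k)
    (hm : MemLp (fun x => γ ⌊‖x‖⌋₊ • v x) 2) :
    sq (fun x => γ ⌊‖x‖⌋₊ • v x) ≤ 2 := by
  have h1 : ∫⁻ x, ENNReal.ofReal (‖γ ⌊‖x‖⌋₊ • v x‖ ^ 2) ≤
      ∫⁻ x, ∑' k : ℕ, ENNReal.ofReal (γ k ^ 2) *
        (ball (0 : E) (k + 1)).indicator (fun x => ENNReal.ofReal (‖v x‖ ^ 2)) x := by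
    apply lintegral_mono
    intro x
    refine le_trans (le_of_eq ?_) (ENNReal.le_tsum ⌊‖x‖⌋₊)
    have hx : x ∈ ball (0 : E) ((⌊‖x‖⌋₊ : ℝ) + 1) := by
      rw [mem_ball_zero_iff]
      exact Nat.lt_floor_add_one _
    simp only
    rw [Set.indicator_of_mem hx, ← ENNReal.ofReal_mul (by positivity), norm_smul, mul_pow,
      Real.norm_eq_abs, sq_abs]
  have h2 : ∫⁻ x, ∑' k : ℕ, ENNReal.ofReal (γ k ^ 2) *
        (ball (0 : E) (k + 1)).indicator (fun x => ENNReal.ofReal (‖v x‖ ^ 2)) x ≤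
      ∑' k : ℕ, ENNReal.ofReal ((1 / 4) ^ k) := by
    rw [lintegral_tsum]
    · apply ENNReal.tsum_le_tsum
      intro k
      rw [lintegral_const_mul' _ _ ENNReal.ofReal_ne_top, lintegral_indicator measurableSet_ball]
      have hint : IntegrableOn (fun x => ‖v x‖ ^ 2) (ball (0 : E) (k + 1)) :=
        (integrable_norm_sq hv).integrableOn
      rw [← ofReal_integral_eq_lintegral_ofReal hint (ae_of_all _ (fun x => by positivity)),
        ← ENNReal.ofReal_mul (by positivity)]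
      apply ENNReal.ofReal_le_ofReal
      calc γ k ^ 2 * ∫ x in ball (0 : E) (k + 1), ‖v x‖ ^ 2 ≤ γ k ^ 2 * M k := by
            apply mul_le_mul_of_nonneg_left (hM k) (by positivity)
        _ ≤ _ := hγM k
    · intro k
      apply AEMeasurable.const_mul
      apply AEMeasurable.indicator _ measurableSet_ball
      exact (hv.1.norm.aemeasurable.pow_const 2).ennreal_ofReal
  have h3 : ∑' k : ℕ, ENNReal.ofReal ((1 / 4) ^ k) ≤ ENNReal.ofReal 2 := by
    rw [← ENNReal.ofReal_tsum_of_nonneg (fun k => by positivity)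
      (summable_geometric_of_lt_one (by norm_num) (by norm_num))]
    apply ENNReal.ofReal_le_ofReal
    rw [tsum_geometric_of_lt_one (by norm_num) (by norm_num)]
    norm_num
  have h4 := h1.trans (h2.trans h3)
  unfold Helper38.Curl.sq
  have h5 : AEStronglyMeasurable (fun x => ‖γ ⌊‖x‖⌋₊ • v x‖ ^ 2) volume := hm.1.norm.pow 2
  simp only
  rw [integral_eq_lintegral_of_nonneg_ae (ae_of_all _ (fun x => by positivity)) h5]
  exact ENNReal.toReal_le_of_le_ofReal (by norm_num) h4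

/-- Packet C-WC. -/
theorem weak_compact {v : ℕ → E → E} (hv : ∀ n, MemLp (v n) 2)
    (hb : ∀ R, ∃ C, ∀ᶠ n in atTop, sqOn (ball 0 R) (v n) ≤ C) :
    ∃ σ : ℕ → ℕ, StrictMono σ ∧ ∃ V : E → E, (∀ R, MemLp V 2 (volume.restrict (ball 0 R))) ∧
      WkTo (fun n => v (σ n)) V := by
  have hM : ∀ k : ℕ, ∃ M : ℝ, 0 ≤ M ∧ ∀ n, sqOn (ball 0 (k + 1)) (v n) ≤ M := by
    intro k
    obtain ⟨C, hC⟩ := hb (k + 1)
    obtain ⟨N, hN⟩ := eventually_atTop.1 hC
    refine ⟨|C| + ∑ i ∈ Finset.range N, sqOn (ball 0 (k + 1)) (v i), ?_, ?_⟩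
    · have := Finset.sum_nonneg (s := Finset.range N)
        (fun i _ => sqOn_nonneg (ball (0 : E) (k + 1)) (v i))
      positivity
    · intro n
      have h0 := Finset.sum_nonneg (s := Finset.range N)
        (fun i _ => sqOn_nonneg (ball (0 : E) (k + 1)) (v i))
      rcases le_or_gt N n with h | h
      · have := hN n h
        linarith [le_abs_self C]
      · have h1 := Finset.single_le_sum (s := Finset.range N)
          (f := fun i => sqOn (ball (0 : E) (k + 1)) (v i))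
          (fun i _ => sqOn_nonneg _ _) (Finset.mem_range.2 h)
        linarith [abs_nonneg C]
  choose M hM0 hM using hM
  let γ : ℕ → ℝ := fun k => (1 / 2) ^ k / √(1 + M k)
  have hγ : ∀ k, 0 < γ k := by
    intro k
    have := hM0 k
    positivity
  have hγM : ∀ k, γ k ^ 2 * M k ≤ (1 / 4) ^ k := by
    intro k
    have h0 := hM0 k
    have h1 : γ k ^ 2 = (1 / 4) ^ k / (1 + M k) := by
      show ((1 / 2) ^ k / √(1 + M k)) ^ 2 = _
      rw [div_pow, Real.sq_sqrt (by linarith), ← pow_mul, mul_comm k 2, pow_mul]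
      norm_num
    rw [h1, div_mul_eq_mul_div, div_le_iff₀ (by linarith)]
    have : (0 : ℝ) < (1 / 4) ^ k := by positivity
    nlinarith
  have hγ1 : ∀ k, γ k ≤ 1 := by
    intro k
    have h0 := hM0 k
    have h1 : (1 : ℝ) ≤ √(1 + M k) := by
      rw [Real.one_le_sqrt]; linarith
    have h2 : ((1 : ℝ) / 2) ^ k ≤ 1 := pow_le_one₀ (by norm_num) (by norm_num)
    show (1 / 2) ^ k / √(1 + M k) ≤ 1
    rw [div_le_one (by positivity)]
    exact h2.trans h1
  have hfl : Measurable (fun x : E => ⌊‖x‖⌋₊) := Nat.measurable_floor.comp measurable_norm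
  have hcm : Measurable (fun x : E => γ ⌊‖x‖⌋₊) := (measurable_from_top (f := γ)).comp hfl
  have hcm' : Measurable (fun x : E => (γ ⌊‖x‖⌋₊)⁻¹) := hcm.inv
  -- bounds on `1/γ`
  have hinv : ∀ R : ℝ, ∃ B : ℝ, 0 ≤ B ∧ ∀ x : E, ‖x‖ ≤ R → |(γ ⌊‖x‖⌋₊)⁻¹| ≤ B := by
    intro R
    refine ⟨∑ k ∈ Finset.range (⌊R⌋₊ + 1), (γ k)⁻¹,
      Finset.sum_nonneg (fun k _ => (inv_pos.2 (hγ k)).le), ?_⟩
    intro x hx
    rw [abs_of_pos (inv_pos.2 (hγ _))]
    refine Finset.single_le_sum (f := fun k => (γ k)⁻¹) (fun k _ => (inv_pos.2 (hγ k)).le) ?_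
    rw [Finset.mem_range]
    have := Nat.floor_le_floor hx
    omega
  have hwm : ∀ n, MemLp (fun x => γ ⌊‖x‖⌋₊ • v n x) 2 := by
    intro n
    refine (hv n).mono (hcm.aestronglyMeasurable.smul (hv n).1) (ae_of_all _ (fun x => ?_))
    rw [norm_smul, Real.norm_eq_abs, abs_of_pos (hγ _)]
    exact mul_le_of_le_one_left (norm_nonneg _) (hγ1 _)
  obtain ⟨σ, hσ, W, hW, hlim⟩ := weak_compact_L2 hwm (C := 2)
    (fun n => sq_weight_le (hv n) hγ (fun k => hM k n) hγM (hwm n))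
  refine ⟨σ, hσ, fun x => (γ ⌊‖x‖⌋₊)⁻¹ • W x, ?_, ?_⟩
  · intro R
    obtain ⟨B, hB0, hB⟩ := hinv R
    refine MemLp.of_le_mul (c := B) (hW.restrict _) (hcm'.aestronglyMeasurable.smul hW.1.restrict) ?_
    refine (ae_restrict_iff' measurableSet_ball).2 (ae_of_all _ (fun x hx => ?_))
    rw [norm_smul, Real.norm_eq_abs]
    exact mul_le_mul_of_nonneg_right (hB x (mem_ball_zero_iff.1 hx).le) (norm_nonneg _)
  · rintro φ hφ ⟨R, hR⟩
    obtain ⟨B, hB0, hB⟩ := hinv R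
    have hψ : MemLp (fun x => (γ ⌊‖x‖⌋₊)⁻¹ • φ x) 2 := by
      refine MemLp.of_le_mul (c := B) hφ (hcm'.aestronglyMeasurable.smul hφ.1) ?_
      filter_upwards [hR] with x hx
      rw [norm_smul, Real.norm_eq_abs]
      by_cases h : x ∈ closedBall (0 : E) R
      · exact mul_le_mul_of_nonneg_right (hB x (mem_closedBall_zero_iff.1 h)) (norm_nonneg _)
      · rw [hx h, norm_zero, mul_zero, mul_zero]
    have h1 := hlim _ hψ
    have h2 : ∀ n, ip (fun x => γ ⌊‖x‖⌋₊ • v (σ n) x) (fun x => (γ ⌊‖x‖⌋₊)⁻¹ • φ x) =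
        ip (v (σ n)) φ := by
      intro n
      unfold ip
      apply integral_congr_ae
      refine ae_of_all _ (fun x => ?_)
      simp only
      rw [real_inner_smul_left, real_inner_smul_right, ← mul_assoc,
        mul_inv_cancel₀ (hγ _).ne', one_mul]
    have h3 : ip W (fun x => (γ ⌊‖x‖⌋₊)⁻¹ • φ x) = ip (fun x => (γ ⌊‖x‖⌋₊)⁻¹ • W x) φ := by
      unfold ip
      apply integral_congr_ae
      refine ae_of_all _ (fun x => ?_)
      simp only
      rw [real_inner_smul_left, real_inner_smul_right]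
    rw [← h3]
    simpa only [h2] using h1

end Pool.Agent.Helper42.Curl
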