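import Pool.Agent.Helper42.Curl.Hel

/-! Packet C-K2: existence of a maximizer of the helicity quotient. -/

open MeasureTheory Set Filter Topology Metric
open scoped ContDiff RealInnerProductSpace
open Pool.Agent.Helper38.Curl

namespace Pool.Agent.Helper42.Curl

/-- Statement of `exists_pos_helicity`. -/
def HK1 : Prop := ∀ {Ω : Set E}, IsOpen Ω → Ω.Nonempty → ∃ A, TestIn Ω A ∧ 0 < ip (curl A) A

/-- Statement of `wcont`. -/
def HWcont : Prop := ∀ {R C : ℝ} {v a : ℕ → E → E} {V b : E → E}, (∀ n, Pot (a n) (v n)) →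
    (∀ n, VanOff (closedBall 0 R) (v n)) → (∀ n, VanOff (closedBall 0 R) (a n)) →
    (∀ n, Helper38.Curl.sq (v n) ≤ C) → (∀ n, Helper38.Curl.sq (a n) ≤ C) → Pot b V → WkTo v V →
    Tendsto (fun n => ip (v n) (a n)) atTop (𝓝 (ip V b))

/-- The subspace of the curls of test fields. -/
def curlSpace (Ω : Set E) : Submodule ℝ (Lp E 2 (volume : Measure E)) where
  carrier := {f | ∃ A, ∃ h : TestIn Ω A, f = h.1.curl.memLp.toLp (curl A)}
  zero_mem' := by
    have h : TestIn Ω (fun _ => (0 : E)) := by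
      refine ⟨⟨contDiff_const, HasCompactSupport.zero⟩, ?_⟩
      have : tsupport (fun _ : E => (0 : E)) = ∅ := by
        rw [tsupport_eq_empty_iff]; rfl
      rw [this]; exact empty_subset _
    refine ⟨_, h, ?_⟩
    have h1 : curl (fun _ : E => (0 : E)) = fun _ => 0 := by
      funext x
      exact curl_eq_zero_of_notMem (by
        have : tsupport (fun _ : E => (0 : E)) = ∅ := by
          rw [tsupport_eq_empty_iff]; rfl
        rw [this]; exact notMem_empty x)
    symm
    rw [Lp.eq_zero_iff_ae_eq_zero]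
    filter_upwards [h.1.curl.memLp.coeFn_toLp] with x hx
    rw [hx, h1]; rfl
  add_mem' := by
    rintro f g ⟨A, hA, rfl⟩ ⟨B, hB, rfl⟩
    refine ⟨_, testIn_add hA hB, ?_⟩
    rw [← MemLp.toLp_add]
    apply (MemLp.toLp_eq_toLp_iff _ _).2
    rw [curl_add_fun hA.1 hB.1]
    exact Filter.EventuallyEq.rfl
  smul_mem' := by
    rintro c f ⟨A, hA, rfl⟩
    refine ⟨_, testIn_smul hA c, ?_⟩
    rw [← MemLp.toLp_const_smul]
    apply (MemLp.toLp_eq_toLp_iff _ _).2
    rw [curl_smul_fun hA.1]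
    exact Filter.EventuallyEq.rfl

/-- Fields orthogonal to the orthogonal complement of the curls are limits of curls. -/
theorem dense_of_orth {Ω : Set E} {u : E → E} (hu : MemLp u 2)
    (h : ∀ f : E → E, MemLp f 2 → (∀ A, TestIn Ω A → ip (curl A) f = 0) → ip u f = 0) :
    ∀ ε, 0 < ε → ∃ A, TestIn Ω A ∧ Helper38.Curl.sq (fun x => curl A x - u x) < ε := by
  intro ε hε
  have h1 : hu.toLp u ∈ (curlSpace Ω).topologicalClosure := by
    rw [← Submodule.orthogonal_orthogonal_eq_closure, Submodule.mem_orthogonal]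
    intro f hf
    rw [Submodule.mem_orthogonal] at hf
    have h2 := h f (Lp.memLp f) (fun A hA => by
      have h3 := hf _ ⟨A, hA, rfl⟩
      rw [ip_eq_inner hA.1.curl.memLp (Lp.memLp f), Lp.toLp_coeFn]
      exact h3)
    rw [ip_comm, ip_eq_inner (Lp.memLp f) hu, Lp.toLp_coeFn] at h2
    exact h2
  have h2 : hu.toLp u ∈ closure (curlSpace Ω : Set (Lp E 2 (volume : Measure E))) := h1
  rw [Metric.mem_closure_iff] at h2
  obtain ⟨g, ⟨A, hA, rfl⟩, hg⟩ := h2 (√ε) (Real.sqrt_pos.2 hε)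
  refine ⟨A, hA, ?_⟩
  have h3 : MemLp (fun x => curl A x - u x) 2 := hA.1.curl.memLp.sub hu
  rw [sq_eq_norm h3]
  have h4 : h3.toLp (fun x => curl A x - u x) = hA.1.curl.memLp.toLp (curl A) - hu.toLp u := rfl
  rw [h4, ← dist_eq_norm, dist_comm]
  calc dist (hu.toLp u) (hA.1.curl.memLp.toLp (curl A)) ^ 2 < (√ε) ^ 2 := by
        gcongr
    _ = ε := Real.sq_sqrt hε.le

/-- Packet C-K2. -/
theorem exists_maximizer (hK1 : HK1) (hsym : HSym) (hP : HP1) (hW : HWcont)
    {Ω : Set E} (ho : IsOpen Ω) (hb : Bornology.IsBounded Ω) (hn : Ω.Nonempty) :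
    ∃ Λ : ℝ, 0 < Λ ∧ (∀ A, TestIn Ω A → ip (curl A) A ≤ Λ * Helper38.Curl.sq (curl A)) ∧
      ∃ u a, Pot a u ∧ (∀ x, x ∉ Ω → u x = 0) ∧ Helper38.Curl.sq u = 3 ∧ ip u a = 3 * Λ ∧
        ∀ ε, 0 < ε → ∃ A, TestIn Ω A ∧ Helper38.Curl.sq (fun x => curl A x - u x) < ε := by
  obtain ⟨R, hR, hΩ⟩ : ∃ R : ℝ, 0 < R ∧ Ω ⊆ closedBall 0 R := by
    obtain ⟨R, hR⟩ := hb.subset_closedBall 0
    exact ⟨max R 1, by positivity, hR.trans (closedBall_subset_closedBall (le_max_left _ _))⟩
  have hbd : ∀ A, TestIn Ω A → |ip (curl A) A| ≤ 2 * R * Helper38.Curl.sq (curl A) :=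
    fun A hA => hel_bound hsym hP hR (curl_van hA hΩ) hA.1.pot
  -- scaling
  have hscale : ∀ A, TestIn Ω A → 0 < Helper38.Curl.sq (curl A) →
      ∃ B, TestIn Ω B ∧ Helper38.Curl.sq (curl B) = 3 ∧
        ip (curl B) B = 3 / Helper38.Curl.sq (curl A) * ip (curl A) A := by
    intro A hA hpos
    have h1 : (√(3 / Helper38.Curl.sq (curl A))) ^ 2 = 3 / Helper38.Curl.sq (curl A) :=
      Real.sq_sqrt (by positivity)
    refine ⟨_, testIn_smul hA (√(3 / Helper38.Curl.sq (curl A))), ?_, ?_⟩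
    · rw [curl_smul_fun hA.1, sq_smul, h1]
      field_simp
    · rw [curl_smul_fun hA.1, ip_smul_left, ip_smul_right, ← mul_assoc, ← pow_two, h1]
  set S : Set ℝ := {x | ∃ A, TestIn Ω A ∧ Helper38.Curl.sq (curl A) = 3 ∧ ip (curl A) A = x} with hS
  have hSb : BddAbove S := by
    refine ⟨2 * R * 3, ?_⟩
    rintro x ⟨A, hA, h3, rfl⟩
    have := hbd A hA
    rw [h3] at this
    exact (le_abs_self _).trans this
  obtain ⟨A₀, hA₀, hpos₀⟩ := hK1 ho hn
  have hpos₁ : 0 < Helper38.Curl.sq (curl A₀) := by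
    have h1 := (le_abs_self _).trans (hbd A₀ hA₀)
    by_contra hcon
    push Not at hcon
    have : 2 * R * Helper38.Curl.sq (curl A₀) ≤ 0 :=
      mul_nonpos_of_nonneg_of_nonpos (by positivity) hcon
    linarith
  obtain ⟨B₀, hB₀, hB₃, hB₄⟩ := hscale A₀ hA₀ hpos₁
  have hB₅ : 0 < ip (curl B₀) B₀ := by rw [hB₄]; positivity
  have hSn : S.Nonempty := ⟨_, B₀, hB₀, hB₃, rfl⟩
  set Λ := sSup S / 3 with hΛ
  have hS3 : sSup S = 3 * Λ := by rw [hΛ]; ring
  have hΛ0 : 0 < Λ := by
    have : ip (curl B₀) B₀ ≤ sSup S := le_csSup hSb ⟨B₀, hB₀, hB₃, rfl⟩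
    rw [hΛ]
    linarith
  have hmax : ∀ A, TestIn Ω A → ip (curl A) A ≤ Λ * Helper38.Curl.sq (curl A) := by
    intro A hA
    rcases (sq_nonneg' (curl A)).lt_or_eq with hpos | h0
    · obtain ⟨B, hB, hB3, hB4⟩ := hscale A hA hpos
      have h1 : ip (curl B) B ≤ 3 * Λ := by
        rw [← hS3]; exact le_csSup hSb ⟨B, hB, hB3, rfl⟩
      rw [hB4, div_mul_eq_mul_div, div_le_iff₀ hpos] at h1
      linarith
    · have h1 := (le_abs_self _).trans (hbd A hA)
      rw [← h0, mul_zero] at h1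
      rw [← h0, mul_zero]
      exact h1
  refine ⟨Λ, hΛ0, hmax, ?_⟩
  -- a maximizing sequence
  have hseq : ∀ n : ℕ, ∃ A, TestIn Ω A ∧ Helper38.Curl.sq (curl A) = 3 ∧
      3 * Λ - 1 / ((n : ℝ) + 1) < ip (curl A) A := by
    intro n
    have h1 : 3 * Λ - 1 / ((n : ℝ) + 1) < sSup S := by
      rw [hS3]
      have : (0 : ℝ) < 1 / ((n : ℝ) + 1) := by positivity
      linarith
    obtain ⟨x, ⟨A, hA, hA3, rfl⟩, hx⟩ := exists_lt_of_lt_csSup hSn h1
    exact ⟨A, hA, hA3, hx⟩
  choose A hA hA3 hAlim using hseq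
  have hvan : ∀ n, VanOff (closedBall 0 R) (curl (A n)) := fun n => curl_van (hA n) hΩ
  have hpot : ∀ n, ∃ a, Pot a (curl (A n)) ∧ VanOff (closedBall 0 R) a ∧
      Helper38.Curl.sq a ≤ 4 * R ^ 2 * Helper38.Curl.sq (curl (A n)) :=
    fun n => hP hR ((hA n).1.pot.sol (hvan n))
  choose a ha hav hasq using hpot
  have hmem : ∀ n, MemLp (curl (A n)) 2 := fun n => (hA n).1.curl.memLp
  obtain ⟨σ, hσ, V, hVm, hVw⟩ := weak_compact hmem (fun R' => ⟨3, Eventually.of_forall (fun n => by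
    rw [← hA3 n]
    have h1 := sqOn_mono (S := ball (0 : E) R') (T := univ) (subset_univ _)
      (v := curl (A n)) (by rw [Measure.restrict_univ]; exact hmem n)
    have h2 : sqOn univ (curl (A n)) = Helper38.Curl.sq (curl (A n)) := by
      unfold sqOn Helper38.Curl.sq; rw [Measure.restrict_univ]
    rwa [h2] at h1)⟩)
  set u : E → E := Ω.indicator V with hu
  have hΩm : MeasurableSet Ω := ho.measurableSet
  have huL : MemLp u 2 := by
    apply memLp_ind hΩm
    refine (hVm (R + 1)).mono_measure (Measure.restrict_mono ?_ le_rfl)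
    exact hΩ.trans (closedBall_subset_ball (by linarith))
  have huv : VanOff (closedBall 0 R) u := (vanOff_ind Ω V).mono hΩ
  -- weak convergence against all square integrable fields
  have hweak : ∀ φ : E → E, MemLp φ 2 →
      Tendsto (fun n => ip (curl (A (σ n))) φ) atTop (𝓝 (ip u φ)) := by
    intro φ hφ
    have h1 := hVw (Ω.indicator φ) (hφ.indicator hΩm) ⟨R, (vanOff_ind Ω φ).mono hΩ⟩
    have h2 : ∀ n, ip (curl (A (σ n))) (Ω.indicator φ) = ip (curl (A (σ n))) φ := by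
      intro n
      unfold ip
      congr 1
      funext x
      by_cases hx : x ∈ Ω
      · rw [Set.indicator_of_mem hx]
      · rw [curl_off (hA (σ n)) hx, inner_zero_left, inner_zero_left]
    have h3 : ip V (Ω.indicator φ) = ip u φ := by
      unfold ip
      congr 1
      funext x
      by_cases hx : x ∈ Ω
      · rw [hu, Set.indicator_of_mem hx, Set.indicator_of_mem hx]
      · rw [hu, Set.indicator_of_notMem hx, Set.indicator_of_notMem hx, inner_zero_left,
          inner_zero_right]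
    simp only [h2, h3] at h1
    exact h1
  have hdense := dense_of_orth huL (Ω := Ω) (fun f hf h => by
    have h1 := hweak f hf
    have h2 : ∀ n, ip (curl (A (σ n))) f = 0 := fun n => h _ (hA (σ n))
    simp only [h2] at h1
    exact (tendsto_nhds_unique h1 tendsto_const_nhds))
  have hu3 : Helper38.Curl.sq u ≤ 3 := by
    have h1 := hweak u huL
    have h2 : ip u u ≤ √3 * √(Helper38.Curl.sq u) := by
      refine le_of_tendsto h1 (Eventually.of_forall (fun n => ?_))
      have h3 := (le_abs_self _).trans (abs_ip_le (hmem (σ n)) huL)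
      rwa [hA3] at h3
    rw [← sq_eq_ip] at h2
    have h3 : Helper38.Curl.sq u = √(Helper38.Curl.sq u) * √(Helper38.Curl.sq u) :=
      (Real.mul_self_sqrt (sq_nonneg' u)).symm
    rcases (Real.sqrt_nonneg (Helper38.Curl.sq u)).lt_or_eq with hpos | h0
    · have h5 : √(Helper38.Curl.sq u) * √(Helper38.Curl.sq u) ≤ √3 * √(Helper38.Curl.sq u) := by
        rw [Real.mul_self_sqrt (sq_nonneg' u)]; exact h2
      have h4 := le_of_mul_le_mul_right h5 hpos
      exact (Real.sqrt_le_sqrt_iff (by norm_num)).1 h4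
    · rw [h3, ← h0]; norm_num
  have hsol : Sol (closedBall 0 R) u := by
    refine ⟨huL, huv, divFree_iff.2 (fun η hη => ?_)⟩
    have h1 := hweak _ hη.gradient.memLp
    have h2 : ∀ n, ip (curl (A (σ n))) (gradient η) = 0 :=
      fun n => divFree_iff.1 (hA (σ n)).1.pot.divFree η hη
    simp only [h2] at h1
    exact (tendsto_nhds_unique h1 tendsto_const_nhds)
  obtain ⟨b, hb1, hb2, hb3⟩ := hP hR hsol
  have hlim : Tendsto (fun n => ip (curl (A (σ n))) (a (σ n))) atTop (𝓝 (ip u b)) := by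
    refine hW (R := R) (C := max 3 (4 * R ^ 2 * 3)) (fun n => ha (σ n)) (fun n => hvan (σ n))
      (fun n => hav (σ n)) (fun n => ?_) (fun n => ?_) hb1 (fun φ hφ _ => hweak φ hφ)
    · rw [hA3]; exact le_max_left _ _
    · refine (hasq (σ n)).trans ?_
      rw [hA3]; exact le_max_right _ _
  have hlim2 : Tendsto (fun n => ip (curl (A (σ n))) (a (σ n))) atTop (𝓝 (3 * Λ)) := by
    have h1 : ∀ n, ip (curl (A n)) (a n) = ip (curl (A n)) (A n) :=
      fun n => hel_congr hsym (ha n) (hA n).1.pot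
    have h2 : Tendsto (fun n : ℕ => ip (curl (A n)) (a n)) atTop (𝓝 (3 * Λ)) := by
      have h3 : Tendsto (fun n : ℕ => 3 * Λ - 1 / ((n : ℝ) + 1)) atTop (𝓝 (3 * Λ - 0)) :=
        tendsto_const_nhds.sub tendsto_one_div_add_atTop_nhds_zero_nat
      rw [sub_zero] at h3
      refine tendsto_of_tendsto_of_tendsto_of_le_of_le h3 tendsto_const_nhds ?_ ?_
      · intro n
        show 3 * Λ - 1 / ((n : ℝ) + 1) ≤ ip (curl (A n)) (a n)
        rw [h1]
        exact (hAlim n).le
      · intro n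
        show ip (curl (A n)) (a n) ≤ 3 * Λ
        rw [h1]
        have := hmax (A n) (hA n)
        rw [hA3] at this
        linarith
    exact h2.comp hσ.tendsto_atTop
  have hub : ip u b = 3 * Λ := tendsto_nhds_unique hlim hlim2
  have hge := hel_le_of_dense hsym hP hR hΩ hΛ0.le hmax huv hb1 hdense
  refine ⟨u, b, hb1, fun x hx => Set.indicator_of_notMem hx _, le_antisymm hu3 ?_, hub, hdense⟩
  rw [hub] at hge
  have h1 : Λ * 3 ≤ Λ * Helper38.Curl.sq u := by linarith
  exact le_of_mul_le_mul_left h1 hΛ0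

end Pool.Agent.Helper42.Curl
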