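import Pool.Agent.Helper42.Curl.WC

/-! Helicity: consequences of the symmetry of potentials and of the existence of potentials. -/

open MeasureTheory Set Filter Topology Metric
open scoped ContDiff RealInnerProductSpace
open Pool.Agent.Helper38.Curl

namespace Pool.Agent.Helper42.Curl

/-- Statement of `pot_symm`. -/
def HSym : Prop := ∀ {a v b w : E → E}, Pot a v → Pot b w → ip v b = ip a w

/-- Statement of `pot_exists`. -/
def HP1 : Prop := ∀ {c : E} {ρ : ℝ}, 0 < ρ → ∀ {v : E → E}, Sol (closedBall c ρ) v →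
    ∃ a, Pot a v ∧ VanOff (closedBall c ρ) a ∧ Helper38.Curl.sq a ≤ 4 * ρ ^ 2 * Helper38.Curl.sq v

theorem testIn_smul {Ω : Set E} {A : E → E} (h : TestIn Ω A) (c : ℝ) :
    TestIn Ω (fun x => c • A x) := by
  refine ⟨⟨h.1.1.const_smul c, h.1.2.smul_left (f := fun _ => c)⟩, ?_⟩
  exact (tsupport_smul_subset_right (fun _ => c) A).trans h.2

theorem testIn_add {Ω : Set E} {A B : E → E} (h : TestIn Ω A) (h' : TestIn Ω B) :
    TestIn Ω (fun x => A x + B x) := by
  refine ⟨⟨h.1.1.add h'.1.1, h.1.2.add h'.1.2⟩, ?_⟩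
  exact (tsupport_add A B).trans (union_subset h.2 h'.2)

theorem curl_smul_fun {A : E → E} (h : Test A) (c : ℝ) :
    curl (fun x => c • A x) = fun x => c • curl A x := by
  funext x
  exact curl_const_smul (h.1.differentiable (by simp) x) c

theorem curl_add_fun {A B : E → E} (h : Test A) (h' : Test B) :
    curl (fun x => A x + B x) = fun x => curl A x + curl B x := by
  funext x
  exact curl_add (h.1.differentiable (by simp) x) (h'.1.differentiable (by simp) x)

theorem curl_off {Ω : Set E} {A : E → E} (h : TestIn Ω A) {x : E} (hx : x ∉ Ω) :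
    curl A x = 0 := curl_eq_zero_of_notMem (fun hc => hx (h.2 hc))

theorem curl_van {Ω : Set E} {A : E → E} (h : TestIn Ω A) {C : Set E} (hC : Ω ⊆ C) :
    VanOff C (curl A) := Eventually.of_forall fun _ hx => curl_off h (fun hc => hx (hC hc))

theorem hel_congr (hsym : HSym) {v a a' : E → E} (h : Pot a v) (h' : Pot a' v) :
    ip v a = ip v a' := by
  rw [hsym h h', ip_comm]

theorem hel_bound (hsym : HSym) (hP : HP1) {R : ℝ} (hR : 0 < R) {w b : E → E}
    (hs : VanOff (closedBall 0 R) w) (hb : Pot b w) : |ip w b| ≤ 2 * R * Helper38.Curl.sq w := by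
  obtain ⟨a, ha, _, ha2⟩ := hP hR (hb.sol hs)
  rw [hel_congr hsym hb ha]
  have h1 := abs_ip_le ha.memLp₂ ha.memLp₁
  have h2 : √(Helper38.Curl.sq a) ≤ 2 * R * √(Helper38.Curl.sq w) := by
    calc √(Helper38.Curl.sq a) ≤ √((2 * R) ^ 2 * Helper38.Curl.sq w) := by
          apply Real.sqrt_le_sqrt
          linarith
      _ = _ := by rw [Real.sqrt_mul (by positivity), Real.sqrt_sq (by positivity)]
  calc |ip w a| ≤ √(Helper38.Curl.sq w) * √(Helper38.Curl.sq a) := h1
    _ ≤ √(Helper38.Curl.sq w) * (2 * R * √(Helper38.Curl.sq w)) := by gcongr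
    _ = 2 * R * (√(Helper38.Curl.sq w) * √(Helper38.Curl.sq w)) := by ring
    _ = _ := by rw [Real.mul_self_sqrt (sq_nonneg' w)]

/-- The helicity bound passes to the closure. -/
theorem hel_le_of_dense (hsym : HSym) (hP : HP1) {Ω : Set E} {R : ℝ} (hR : 0 < R)
    (hΩ : Ω ⊆ closedBall 0 R) {Λ : ℝ} (hΛ : 0 ≤ Λ)
    (hmax : ∀ A, TestIn Ω A → ip (curl A) A ≤ Λ * Helper38.Curl.sq (curl A)) {u a : E → E}
    (hu : VanOff (closedBall 0 R) u) (ha : Pot a u)
    (hK : ∀ ε, 0 < ε → ∃ A, TestIn Ω A ∧ Helper38.Curl.sq (fun x => curl A x - u x) < ε) :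
    ip u a ≤ Λ * Helper38.Curl.sq u := by
  set s := √(Helper38.Curl.sq u) with hs
  have hs0 : 0 ≤ s := Real.sqrt_nonneg _
  have hss : s * s = Helper38.Curl.sq u := Real.mul_self_sqrt (sq_nonneg' u)
  set α := √(Helper38.Curl.sq a) with hα
  have hα0 : 0 ≤ α := Real.sqrt_nonneg _
  have key : ∀ δ : ℝ, 0 < δ → δ ≤ 1 →
      ip u a ≤ Λ * Helper38.Curl.sq u + (Λ * (2 * s + 1) + s * (2 * R) + α + 2 * R) * δ := by
    intro δ hδ hδ1
    obtain ⟨A, hA, hAd⟩ := hK (δ ^ 2) (by positivity)
    set d : E → E := fun x => curl A x - u x with hd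
    have hpd : Pot (fun x => A x - a x) d := hA.1.pot.sub ha
    have hvd : VanOff (closedBall 0 R) d := (curl_van hA hΩ).sub hu
    obtain ⟨b, hb, _, hb2⟩ := hP hR (hpd.sol hvd)
    set τ := √(Helper38.Curl.sq d) with hτ
    have hτ0 : 0 ≤ τ := Real.sqrt_nonneg _
    have hττ : τ * τ = Helper38.Curl.sq d := Real.mul_self_sqrt (sq_nonneg' d)
    have hτδ : τ ≤ δ := by
      rw [hτ, show δ = √(δ ^ 2) from (Real.sqrt_sq hδ.le).symm]
      exact Real.sqrt_le_sqrt hAd.le
    have hβ : √(Helper38.Curl.sq b) ≤ 2 * R * τ := by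
      calc √(Helper38.Curl.sq b) ≤ √((2 * R) ^ 2 * Helper38.Curl.sq d) := by
            apply Real.sqrt_le_sqrt
            linarith
        _ = _ := by rw [Real.sqrt_mul (by positivity), Real.sqrt_sq (by positivity)]
    have hsum : (fun x => u x + d x) = curl A := by
      funext x
      simp [hd]
    have hpot : Pot (fun x => a x + b x) (curl A) := by
      rw [← hsum]; exact ha.add hb
    have h1 : ip (curl A) A = ip u a + ip u b + (ip d a + ip d b) := by
      rw [hel_congr hsym hA.1.pot hpot, ← hsum,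
        ip_add_left (w := fun x => a x + b x) ha.memLp₂ hb.memLp₂ (ha.memLp₁.add hb.memLp₁),
        ip_add_right ha.memLp₂ ha.memLp₁ hb.memLp₁, ip_add_right hb.memLp₂ ha.memLp₁ hb.memLp₁]
    have h2 : Helper38.Curl.sq (curl A) = Helper38.Curl.sq u + 2 * ip u d + Helper38.Curl.sq d := by
      rw [← hsum]; exact sq_add ha.memLp₂ hb.memLp₂
    have h3 := hmax A hA
    rw [h1, h2] at h3
    have h4 := abs_ip_le ha.memLp₂ hb.memLp₁
    have h5 := abs_ip_le hb.memLp₂ ha.memLp₁
    have h6 := abs_ip_le hb.memLp₂ hb.memLp₁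
    have h7 := abs_ip_le ha.memLp₂ hb.memLp₂
    rw [← hs] at h4 h7
    rw [← hτ] at h5 h6 h7
    rw [← hα] at h5
    have e4 : |ip u b| ≤ s * (2 * R * δ) := h4.trans (by gcongr; exact hβ.trans (by gcongr))
    have e5 : |ip d a| ≤ δ * α := h5.trans (by gcongr)
    have e6 : |ip d b| ≤ 2 * R * δ := by
      refine h6.trans ?_
      calc τ * √(Helper38.Curl.sq b) ≤ 1 * (2 * R * δ) := by
            apply mul_le_mul (hτδ.trans hδ1) (hβ.trans (by gcongr)) (Real.sqrt_nonneg _)
              (by norm_num)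
        _ = _ := by ring
    have e7 : |ip u d| ≤ s * δ := h7.trans (by gcongr)
    have e8 : Helper38.Curl.sq d ≤ δ := by
      rw [← hττ]
      calc τ * τ ≤ δ * 1 := mul_le_mul hτδ (hτδ.trans hδ1) hτ0 hδ.le
        _ = δ := mul_one δ
    have f4 := neg_abs_le (ip u b)
    have f5 := neg_abs_le (ip d a)
    have f6 := neg_abs_le (ip d b)
    have f7 := le_abs_self (ip u d)
    have g1 : Λ * (Helper38.Curl.sq u + 2 * ip u d + Helper38.Curl.sq d) ≤
        Λ * (Helper38.Curl.sq u + 2 * (s * δ) + δ) := by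
      gcongr
      exact f7.trans e7
    nlinarith
  have hK0 : 0 ≤ Λ * (2 * s + 1) + s * (2 * R) + α + 2 * R := by positivity
  apply le_of_forall_pos_le_add
  intro ε hε
  set K := Λ * (2 * s + 1) + s * (2 * R) + α + 2 * R with hKd
  have h1 := key (min 1 (ε / (K + 1))) (lt_min one_pos (by positivity)) (min_le_left _ _)
  have h2 : K * min 1 (ε / (K + 1)) ≤ ε := by
    calc K * min 1 (ε / (K + 1)) ≤ (K + 1) * (ε / (K + 1)) := by
          apply mul_le_mul (by linarith) (min_le_right _ _) (le_min zero_le_one (by positivity))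
            (by linarith)
      _ = ε := by field_simp
  linarith

end Pool.Agent.Helper42.Curl
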